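import Pool.Agent.DPF.Stmts

/-!
# Squad DPF, row NEW: the new traces
-/

namespace Pool.Agent.DPF.H92

open Finset Pool.Agent.DPS

theorem mem_YY {n : ℕ} {st : ℕ → ℕ} {j : Fin n} {X : Finset (Finset (Fin n))}
    {E : Finset (Fin n)} : E ∈ YY st j X ↔ E ∈ X ∧ kp st j E := by
  classical
  unfold YY
  rw [mem_filter]

theorem new (hCFL : CFLStmt) : NEWStmt := by
  intro n k t ν c 𝒯 ht htc hG hC ρ i j hj
  obtain ⟨-, -, c3, -, c5⟩ := hCFL n t c 𝒯 ht htc hG hC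
  have key : ∀ A ∈ AA c 𝒯 ∪ YY (ρ.st i) j (XX c 𝒯), ∀ A' ∈ AA c 𝒯 ∪ YY (ρ.st i) j (XX c 𝒯),
      t ≤ (A ∩ A').card := by
    intro A hA A' hA'
    have sub : ∀ B ∈ AA c 𝒯 ∪ YY (ρ.st i) j (XX c 𝒯), B ∈ AA c 𝒯 ∪ XX c 𝒯 := by
      intro B hB
      rcases mem_union.1 hB with h | h
      · exact mem_union_left _ h
      · exact mem_union_right _ (mem_YY.1 h).1
    rcases mem_union.1 hA with h | h
    · exact c5 A h A' (sub A' hA')
    rcases mem_union.1 hA' with h' | h'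
    · rw [inter_comm]
      exact c5 A' h' A (sub A hA)
    obtain ⟨hX, hk⟩ := mem_YY.1 h
    obtain ⟨hX', hk'⟩ := mem_YY.1 h'
    by_contra hlt
    obtain ⟨hc, hu⟩ := c3 A hX A' hX' (not_le.1 hlt)
    unfold kp at hk hk'
    rcases ρ.conf i A.card A'.card hc with h0 | h0 | ⟨h0, h0'⟩
    · rcases hk with h1 | ⟨h1, -⟩ <;> omega
    · rcases hk' with h1 | ⟨h1, -⟩ <;> omega
    · have j1 : j ∉ A := by
        rcases hk with h1 | ⟨-, h1⟩
        · omega
        · exact h1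
      have j2 : j ∉ A' := by
        rcases hk' with h1 | ⟨-, h1⟩
        · omega
        · exact h1
      rw [← hu, mem_union] at hj
      exact hj.elim j1 j2
  refine ⟨?_, ?_, ?_⟩
  · intro E hE
    exact mem_powerset.1 (mem_filter.1 hE).1
  · intro E hE E' hEE' hE'
    obtain ⟨-, A, hA, hAE⟩ := mem_filter.1 hE
    exact mem_filter.2 ⟨mem_powerset.2 hE', A, hA, hAE.trans hEE'⟩
  · intro E hE E' hE'
    obtain ⟨-, A, hA, hAE⟩ := mem_filter.1 hE
    obtain ⟨-, A', hA', hAE'⟩ := mem_filter.1 hE'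
    exact (key A hA A' hA').trans (card_le_card (inter_subset_inter hAE hAE'))

end Pool.Agent.DPF.H92
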