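import Pool.Agent.DPF.StmtsM

set_option autoImplicit false

/-!
# Squad DPF, row COE: the coefficient of one size
-/

namespace Pool.Agent.DPF.H92

open Finset

theorem coe (hW : WTSStmt) (hS : STAStmt) (hD : DELStmt) (hF : FACStmt) : COEStmt := by
  intro k t L a ω ht hL hk ha hω hP e hae hte heL hek
  obtain ⟨-, hδ0, -, hδn, hδ1⟩ := hD k t L ht hL hk
  obtain ⟨hs0, -, hbig, hall⟩ := hF k t L ht hL hk
  have hst := fun i => hS k t L i e (by omega) hek
  have hs := hs0 e hek
  have hall' := hall e hte heL hek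
  have hbig' := hbig e hte heL hek
  have hd1 : dd t L e + 1 ≤ L := by unfold dd; omega
  have hdn := hδn (dd t L e)
  have hdl := hδ1 (dd t L e)
  have hLp : (0 : ℝ) < L := by
    have : 0 < L := by omega
    exact_mod_cast this
  have haL : (0 : ℝ) < (L : ℝ) - a - 1 := by
    have : ((a + 2 : ℕ) : ℝ) ≤ L := by exact_mod_cast ha
    push_cast at this
    linarith
  have htL : ((t + 2 : ℕ) : ℝ) ≤ L := by exact_mod_cast hL
  have ht3 : ((3 : ℕ) : ℝ) ≤ t := by exact_mod_cast ht
  push_cast at htL ht3
  have heL' : ((e + 1 : ℕ) : ℝ) ≤ L := by exact_mod_cast heL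
  push_cast at heL'
  have hte' : (t : ℝ) ≤ e := by exact_mod_cast hte
  generalize s0 k t L e = s at *
  generalize hδ : del k t L = δ at *
  have hD0 : (0 : ℝ) ≤ (dd t L e : ℝ) := Nat.cast_nonneg _
  have hDh : (dd t L e : ℝ) ≤ (L : ℝ) - t + 1 := by
    have h1 : dd t L e + t ≤ L + 1 := by unfold dd; omega
    have h2 : ((dd t L e + t : ℕ) : ℝ) ≤ ((L + 1 : ℕ) : ℝ) := by exact_mod_cast h1
    push_cast at h2
    linarith
  set h : ℝ := (L : ℝ) - t + 1 with hh
  have hhp : 0 < h := by rw [hh]; linarith
  -- P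
  set P : ℝ := ((a : ℝ) + 1) / L * ω + ((L : ℝ) - a - 1) / L with hPdef
  have hLP : L * P = ((a : ℝ) + 1) * ω + ((L : ℝ) - a - 1) := by
    rw [hPdef]; field_simp
  have hPh : h / L ≤ P := by
    rw [div_le_iff₀ hLp, mul_comm P]
    rw [hLP]
    exact hP
  have key : ((a : ℝ) + 1) / L * ω * s + ((L : ℝ) - a - 1) / L * (s * 1) = s * P := by
    rw [hPdef]; ring
  have key2 : ((a : ℝ) + 1) / L * ω * 0 + ((L : ℝ) - a - 1) / L *
      (s * (((L : ℝ) - e) / ((L : ℝ) - a - 1))) = s * (((L : ℝ) - e) / L) := by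
    field_simp
    ring
  have hhd : 0 < h + (dd t L e : ℝ) := by linarith
  by_cases hfree : k + e ≤ L + t - 1
  · -- free size
    have hsum : ∑ i ∈ range L, wt L δ i *
          (((a : ℝ) + 1) / L * ω * (if sta k t L i e = 1 then s else 0) +
            ((L : ℝ) - a - 1) / L * (s * (if sta k t L i e = 0 then 0
              else if sta k t L i e = 1 then 1 else ((L : ℝ) - e) / ((L : ℝ) - a - 1)))) =
        ∑ i ∈ range L, wt L δ i * (if i < dd t L e then s * P else s * P) := by
      refine Finset.sum_congr rfl fun i _ => ?_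
      rw [(hst i).1 hfree, ite_self, if_pos rfl, if_neg one_ne_zero, if_pos rfl, key]
    rw [hsum, hW L δ (dd t L e) _ _ hd1 hδ0]
    have h1 : (t + 1) * h / (h + (dd t L e : ℝ)) ≤ s := by
      refine hall'.trans ?_
      nlinarith
    have h2 : (t + 1) * h / (2 * L) ≤ (t + 1) * h / (h + (dd t L e : ℝ)) * (h / L) := by
      rw [div_mul_div_comm, div_le_div_iff₀ (by positivity) (by positivity)]
      have h3 : (0 : ℝ) ≤ (t + 1) * h * L := by positivity
      nlinarith
    have h4 : (t + 1) * h / (h + (dd t L e : ℝ)) * (h / L) ≤ s * P := by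
      refine mul_le_mul h1 hPh (by positivity) hs.le
    calc _ ≤ s * P := h2.trans h4
      _ = _ := by ring
  · have hconf : L + t ≤ k + e := by omega
    by_cases hb : L + t - 1 < 2 * e
    · -- big
      have hsum : ∑ i ∈ range L, wt L δ i *
          (((a : ℝ) + 1) / L * ω * (if sta k t L i e = 1 then s else 0) +
            ((L : ℝ) - a - 1) / L * (s * (if sta k t L i e = 0 then 0
              else if sta k t L i e = 1 then 1 else ((L : ℝ) - e) / ((L : ℝ) - a - 1)))) =
        ∑ i ∈ range L, wt L δ i * (if i < dd t L e then s * P else s * (((L : ℝ) - e) / L)) := by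
        refine Finset.sum_congr rfl fun i _ => ?_
        rw [(hst i).2.1 hconf hb]
        by_cases hi : i < dd t L e
        · simp only [if_pos hi, one_ne_zero, if_true, if_false]
          rw [key]
        · simp only [if_neg hi, if_neg (show ¬ (2 : ℕ) = 1 by norm_num),
            if_neg (show ¬ (2 : ℕ) = 0 by norm_num)]
          rw [key2]
      rw [hsum, hW L δ (dd t L e) _ _ hd1 hδ0]
      have hde : (dd t L e : ℝ) = 2 * e - (L + t - 1) := by
        have h1 : dd t L e + (L + t) = 2 * e + 1 := by unfold dd; omega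
        have h2 : ((dd t L e + (L + t) : ℕ) : ℝ) = ((2 * e + 1 : ℕ) : ℝ) := by exact_mod_cast h1
        push_cast at h2
        linarith
      have h3 := hbig' hb
      have hLe : 0 ≤ ((L : ℝ) - e) / L := by
        refine div_nonneg ?_ hLp.le
        linarith
      have h5 : (t + 1) * (dd t L e : ℝ) / (h + (dd t L e : ℝ)) * (h / L) ≤
          s * δ (dd t L e) * P := mul_le_mul h3 hPh (by positivity) (mul_nonneg hs.le hdn)
      have h6 : (t + 1) * h / (h + (dd t L e : ℝ)) * (((L : ℝ) - e) / L) ≤
          s * (1 - δ (dd t L e)) * (((L : ℝ) - e) / L) := mul_le_mul_of_nonneg_right hall' hLe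
      have h7 : (t + 1) * h / (2 * L) = (t + 1) * (dd t L e : ℝ) / (h + (dd t L e : ℝ)) * (h / L) +
          (t + 1) * h / (h + (dd t L e : ℝ)) * (((L : ℝ) - e) / L) := by
        have h8 : (L : ℝ) - e = (h - (dd t L e : ℝ)) / 2 := by rw [hde, hh]; ring
        rw [h8]
        field_simp
        ring
      calc _ ≤ s * δ (dd t L e) * P + s * (1 - δ (dd t L e)) * (((L : ℝ) - e) / L) := by
            rw [h7]; exact add_le_add h5 h6
        _ = _ := by ring
    · -- small or middle
      have hsum : ∑ i ∈ range L, wt L δ i *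
          (((a : ℝ) + 1) / L * ω * (if sta k t L i e = 1 then s else 0) +
            ((L : ℝ) - a - 1) / L * (s * (if sta k t L i e = 0 then 0
              else if sta k t L i e = 1 then 1 else ((L : ℝ) - e) / ((L : ℝ) - a - 1)))) =
        ∑ i ∈ range L, wt L δ i * (if i < dd t L e then 0 else s * (((L : ℝ) - e) / L)) := by
        refine Finset.sum_congr rfl fun i _ => ?_
        rw [(hst i).2.2 hconf (by omega)]
        by_cases hi : i < dd t L e
        · simp only [if_pos hi, if_neg (show ¬ (0 : ℕ) = 1 by norm_num), if_true]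
          ring
        · simp only [if_neg hi, if_neg (show ¬ (2 : ℕ) = 1 by norm_num),
            if_neg (show ¬ (2 : ℕ) = 0 by norm_num)]
          rw [key2]
      rw [hsum, hW L δ (dd t L e) _ _ hd1 hδ0]
      have hde : (dd t L e : ℝ) = (L + t - 1) - 2 * e := by
        have h1 : dd t L e + (2 * e + 1) = L + t := by unfold dd; omega
        have h2 : ((dd t L e + (2 * e + 1) : ℕ) : ℝ) = ((L + t : ℕ) : ℝ) := by exact_mod_cast h1
        push_cast at h2
        linarith
      have hLe : 0 ≤ ((L : ℝ) - e) / L := by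
        refine div_nonneg ?_ hLp.le
        linarith
      have h6 : (t + 1) * h / (h + (dd t L e : ℝ)) * (((L : ℝ) - e) / L) ≤
          s * (1 - δ (dd t L e)) * (((L : ℝ) - e) / L) := mul_le_mul_of_nonneg_right hall' hLe
      have h7 : (t + 1) * h / (2 * L) =
          (t + 1) * h / (h + (dd t L e : ℝ)) * (((L : ℝ) - e) / L) := by
        have h8 : (L : ℝ) - e = (h + (dd t L e : ℝ)) / 2 := by rw [hde, hh]; ring
        rw [h8]
        field_simp
      calc _ ≤ s * (1 - δ (dd t L e)) * (((L : ℝ) - e) / L) := by rw [h7]; exact h6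
        _ = _ := by ring

end Pool.Agent.DPF.H92
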