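import Pool.Agent.DPF.StmtsM

set_option autoImplicit false

/-!
# Squad DPF, row OKD: the keep condition
-/

namespace Pool.Agent.DPF.H92

open Finset

theorem okd (hD : DELStmt) (hF : FACStmt) : OKDStmt := by
  intro k t L ht hL hk
  obtain ⟨-, hδ0, hδm, hδn, hδ1⟩ := hD k t L ht hL hk
  obtain ⟨hs0, -, hbig, hall⟩ := hF k t L ht hL hk
  refine ⟨hδ0, hδm, hδ1, ?_⟩
  intro e hte heL hek hconf
  have hs := hs0 e hek
  have hall' := hall e hte heL hek
  have hbig' := hbig e hte heL hek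
  have hdn := hδn (dd t L e)
  have hdl := hδ1 (dd t L e)
  have hLp : (0 : ℝ) < L := by
    have : 0 < L := by omega
    exact_mod_cast this
  have htL : ((t + 2 : ℕ) : ℝ) ≤ L := by exact_mod_cast hL
  have ht3 : ((3 : ℕ) : ℝ) ≤ t := by exact_mod_cast ht
  push_cast at htL ht3
  have heL' : ((e + 1 : ℕ) : ℝ) ≤ L := by exact_mod_cast heL
  push_cast at heL'
  generalize s0 k t L e = s at *
  generalize del k t L = δ at *
  have hD0 : (0 : ℝ) ≤ (dd t L e : ℝ) := Nat.cast_nonneg _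
  set h : ℝ := (L : ℝ) - t + 1 with hh
  have hh3 : 3 ≤ h := by rw [hh]; linarith
  have hhL : h ≤ L := by rw [hh]; linarith
  have hhd : 0 < h + (dd t L e : ℝ) := by linarith
  have hLe : 0 ≤ ((L : ℝ) - e) / L := by
    refine div_nonneg ?_ hLp.le
    linarith
  have h6 : (t + 1) * h / (h + (dd t L e : ℝ)) * (((L : ℝ) - e) / L) ≤
      s * (1 - δ (dd t L e)) * (((L : ℝ) - e) / L) := mul_le_mul_of_nonneg_right hall' hLe
  -- `(t + 1) h - 2 L = (t - 1) (h - 2)`
  have hS : 2 * (L : ℝ) ≤ (t + 1) * h := by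
    have h1 : (t + 1) * h - 2 * (L : ℝ) = (t - 1) * (h - 2) := by rw [hh]; ring
    have h2 : (0 : ℝ) ≤ (t - 1) * (h - 2) := mul_nonneg (by linarith) (by linarith)
    linarith
  constructor
  · intro hb
    have hde : (dd t L e : ℝ) = 2 * e - (L + t - 1) := by
      have h1 : dd t L e + (L + t) = 2 * e + 1 := by unfold dd; omega
      have h2 : ((dd t L e + (L + t) : ℕ) : ℝ) = ((2 * e + 1 : ℕ) : ℝ) := by exact_mod_cast h1
      push_cast at h2
      linarith
    have h3 := hbig' hb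
    have h8 : (L : ℝ) - e = (h - (dd t L e : ℝ)) / 2 := by rw [hde, hh]; ring
    have h9 : 1 ≤ (t + 1) * (dd t L e : ℝ) / (h + (dd t L e : ℝ)) +
        (t + 1) * h / (h + (dd t L e : ℝ)) * (((L : ℝ) - e) / L) := by
      rw [h8, div_mul_div_comm, div_add_div _ _ hhd.ne' (by positivity),
        le_div_iff₀ (by positivity)]
      have h10 : (0 : ℝ) ≤ (dd t L e : ℝ) * ((t + 1) * (2 * L - h) - 2 * L) := by
        refine mul_nonneg hD0 ?_
        nlinarith
      have h11 : (0 : ℝ) ≤ h * ((t + 1) * h - 2 * L) := mul_nonneg (by linarith) (by linarith)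
      nlinarith
    calc (1 : ℝ) ≤ _ := h9
      _ ≤ s * δ (dd t L e) + s * (1 - δ (dd t L e)) * (((L : ℝ) - e) / L) := add_le_add h3 h6
      _ = _ := by ring
  · intro hb
    have hde : (dd t L e : ℝ) = (L + t - 1) - 2 * e := by
      have h1 : dd t L e + (2 * e + 1) = L + t := by unfold dd; omega
      have h2 : ((dd t L e + (2 * e + 1) : ℕ) : ℝ) = ((L + t : ℕ) : ℝ) := by exact_mod_cast h1
      push_cast at h2
      linarith
    have h8 : (L : ℝ) - e = (h + (dd t L e : ℝ)) / 2 := by rw [hde, hh]; ring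
    have h7 : (t + 1) * h / (2 * L) =
        (t + 1) * h / (h + (dd t L e : ℝ)) * (((L : ℝ) - e) / L) := by
      rw [h8]
      field_simp
    have h9 : (1 : ℝ) ≤ (t + 1) * h / (2 * L) := by
      rw [le_div_iff₀ (by positivity)]
      linarith
    calc (1 : ℝ) ≤ _ := h9
      _ ≤ s * (1 - δ (dd t L e)) * (((L : ℝ) - e) / L) := by rw [h7]; exact h6
      _ = _ := by ring

end Pool.Agent.DPF.H92
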