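import Pool.Agent.DPF.StmtsM

set_option autoImplicit false

/-!
# Squad DPF, row YPT: the first two squares
-/

namespace Pool.Agent.DPF.H92

open Finset

theorem tangent {c u : ℝ} (hc : 0 ≤ c) : 2 * c * u - c ^ 2 ≤ (max u 0) ^ 2 := by
  rcases le_total u 0 with h | h
  · rw [max_eq_right h]
    nlinarith [mul_nonneg hc (neg_nonneg.2 h)]
  · rw [max_eq_left h]
    nlinarith [sq_nonneg (u - c)]

theorem ypt (hW : WTSStmt) (hD : DELStmt) (hC : COEStmt) : YPTStmt := by
  intro k t L a M ω ht hL hk ha hM hω hω1 hP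
  obtain ⟨hM0, hMs, -⟩ := hM
  obtain ⟨-, hδ0, hδm, -, hδ1⟩ := hD k t L ht hL hk
  have hce := hC k t L a ω ht hL hk ha hω hP
  have hLp : (0 : ℝ) < L := by
    have : 0 < L := by omega
    exact_mod_cast this
  have haL : (0 : ℝ) < (L : ℝ) - a - 1 := by
    have : ((a + 2 : ℕ) : ℝ) ≤ L := by exact_mod_cast ha
    push_cast at this
    linarith
  have htL : ((t + 2 : ℕ) : ℝ) ≤ L := by exact_mod_cast hL
  have ht3 : ((3 : ℕ) : ℝ) ≤ t := by exact_mod_cast ht
  push_cast at htL ht3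
  have ha0 : (0 : ℝ) ≤ a := Nat.cast_nonneg a
  generalize del k t L = δ at *
  -- weights
  have hw : ∀ i, 0 ≤ wt L δ i := by
    intro i
    unfold wt
    split_ifs
    · linarith [hδ1 i]
    · linarith [hδm i]
  have hw1 : ∑ i ∈ range L, wt L δ i = 1 := by
    have h := hW L δ 0 1 1 (by omega) hδ0
    simp only [ite_self, mul_one] at h
    rw [h]
    ring
  -- the numbers
  have hx : ∀ e, 0 ≤ xe L a M e := by
    intro e
    unfold xe
    by_cases h : M e = 0
    · rw [h, zero_mul]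
    · have h1 : ((a : ℝ)) < e := by exact_mod_cast (hMs e h).1
      refine mul_nonneg (hM0 e) (div_nonneg (by linarith) (by linarith))
  have hX0 : 0 ≤ ∑ e ∈ range L, xe L a M e := Finset.sum_nonneg fun e _ => hx e
  obtain ⟨P, hPd⟩ : ∃ P : ℝ, P = ((a : ℝ) + 1) / L * ω + ((L : ℝ) - a - 1) / L := ⟨_, rfl⟩
  obtain ⟨R, hRd⟩ : ∃ R : ℝ, R = ((a : ℝ) + 1) / L * ω ^ 2 + ((L : ℝ) - a - 1) / L := ⟨_, rfl⟩
  obtain ⟨S, hSd⟩ : ∃ S : ℝ, S = ((t : ℝ) + 1) * ((L : ℝ) - t + 1) / (2 * L) := ⟨_, rfl⟩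
  have hR : 0 < R := by
    rw [hRd]
    have h1 : 0 < ((L : ℝ) - a - 1) / L := div_pos haL hLp
    positivity
  have hP0 : 0 ≤ P := by
    rw [hPd]
    have h1 : 0 < ((L : ℝ) - a - 1) / L := div_pos haL hLp
    positivity
  have hP1 : P ≤ 1 := by
    have h1 : P = (((a : ℝ) + 1) * ω + ((L : ℝ) - a - 1)) / L := by rw [hPd]; field_simp
    rw [h1, div_le_one hLp]
    nlinarith
  have hS1 : 1 ≤ S := by
    rw [hSd, le_div_iff₀ (by positivity)]
    have h1 : ((t : ℝ) + 1) * ((L : ℝ) - t + 1) - 2 * L = (t - 1) * (L - t + 1 - 2) := by ring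
    have h2 : (0 : ℝ) ≤ (t - 1) * ((L : ℝ) - t + 1 - 2) :=
      mul_nonneg (by linarith) (by linarith)
    linarith
  have hY : YQ t ((L : ℝ) - t + 1) ((L : ℝ) - a) ω (∑ e ∈ range L, xe L a M e) =
      ((L : ℝ) - a) / ((a : ℝ) + 1) * ((P + (S - P) * ∑ e ∈ range L, xe L a M e) ^ 2 / R) := by
    have e1 : (L : ℝ) - t + 1 + t - (L - a) = a + 1 := by ring
    have e2 : (L : ℝ) - t + 1 + t - 1 = L := by ring
    unfold YQ Pw Sw Rw
    rw [e1, e2, ← hSd]
    have e3 : (((a : ℝ) + 1) * ω + ((L : ℝ) - a - 1)) / L = P := by rw [hPd]; field_simp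
    have e4 : (((a : ℝ) + 1) * ω ^ 2 + ((L : ℝ) - a - 1)) / L = R := by rw [hRd]; field_simp
    rw [e3, e4]
  rw [hY]
  generalize hXd : ∑ e ∈ range L, xe L a M e = X at *
  have hYn : 0 ≤ P + (S - P) * X :=
    add_nonneg hP0 (mul_nonneg (by linarith) hX0)
  obtain ⟨c, hcd⟩ : ∃ c : ℝ, c = (P + (S - P) * X) / R := ⟨_, rfl⟩
  have hc : 0 ≤ c := by rw [hcd]; exact div_nonneg hYn hR.le
  -- the mean
  have hmean : ∀ i, ((a : ℝ) + 1) / L * ω * (1 + gA L a (s0 k t L) (sta k t L i) M) +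
      ((L : ℝ) - a - 1) / L * (1 + gN L a (s0 k t L) (sta k t L i) M) =
      P + ∑ e ∈ range L, xe L a M e *
        ((((a : ℝ) + 1) / L * ω * (if sta k t L i e = 1 then s0 k t L e else 0) +
            ((L : ℝ) - a - 1) / L * (s0 k t L e * (if sta k t L i e = 0 then 0
              else if sta k t L i e = 1 then 1 else ((L : ℝ) - e) / ((L : ℝ) - a - 1)))) - P) := by
    intro i
    have h1 : ∑ e ∈ range L, xe L a M e *
        ((((a : ℝ) + 1) / L * ω * (if sta k t L i e = 1 then s0 k t L e else 0) +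
            ((L : ℝ) - a - 1) / L * (s0 k t L e * (if sta k t L i e = 0 then 0
              else if sta k t L i e = 1 then 1 else ((L : ℝ) - e) / ((L : ℝ) - a - 1)))) - P) =
        ∑ e ∈ range L, (((a : ℝ) + 1) / L * ω * (xe L a M e *
            ((if sta k t L i e = 1 then s0 k t L e else 0) - 1)) +
          ((L : ℝ) - a - 1) / L * (xe L a M e * (s0 k t L e * (if sta k t L i e = 0 then 0
              else if sta k t L i e = 1 then 1 else ((L : ℝ) - e) / ((L : ℝ) - a - 1)) - 1))) := by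
      refine Finset.sum_congr rfl fun e _ => ?_
      rw [hPd]
      ring
    rw [h1, Finset.sum_add_distrib, ← Finset.mul_sum, ← Finset.mul_sum, hPd]
    unfold gA gN
    ring
  have hM : P + (S - P) * X ≤ ∑ i ∈ range L, wt L δ i *
      (((a : ℝ) + 1) / L * ω * (1 + gA L a (s0 k t L) (sta k t L i) M) +
      ((L : ℝ) - a - 1) / L * (1 + gN L a (s0 k t L) (sta k t L i) M)) := by
    simp_rw [hmean, mul_add]
    rw [Finset.sum_add_distrib, ← Finset.sum_mul, hw1, one_mul]
    refine add_le_add le_rfl ?_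
    simp_rw [Finset.mul_sum]
    rw [Finset.sum_comm, ← hXd, Finset.mul_sum]
    refine Finset.sum_le_sum fun e _ => ?_
    have h2 : ∀ c' : ℕ → ℝ, ∑ i ∈ range L, wt L δ i * (xe L a M e * (c' i - P)) =
        xe L a M e * (∑ i ∈ range L, wt L δ i * c' i - P) := by
      intro c'
      rw [mul_sub, Finset.mul_sum]
      have h3 : xe L a M e * P = ∑ i ∈ range L, xe L a M e * P * wt L δ i := by
        rw [← Finset.mul_sum, hw1, mul_one]
      rw [h3, ← Finset.sum_sub_distrib]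
      refine Finset.sum_congr rfl fun i _ => ?_
      ring
    rw [h2, mul_comm (S - P)]
    by_cases h : M e = 0
    · have : xe L a M e = 0 := by unfold xe; rw [h, zero_mul]
      rw [this, zero_mul, zero_mul]
    · obtain ⟨h3, h4, h5, h6⟩ := hMs e h
      refine mul_le_mul_of_nonneg_left ?_ (hx e)
      have h7 := hce e h3 h4 h5 h6
      rw [← hSd] at h7
      exact sub_le_sub_right h7 _
  -- the squares
  have hsq : c * (P + (S - P) * X) ≤ ∑ i ∈ range L, wt L δ i *
      (((a : ℝ) + 1) / L * (max (1 + gA L a (s0 k t L) (sta k t L i) M) 0) ^ 2 +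
      ((L : ℝ) - a - 1) / L * (max (1 + gN L a (s0 k t L) (sta k t L i) M) 0) ^ 2) := by
    have h1 : ∀ i, wt L δ i * (2 * c * (((a : ℝ) + 1) / L * ω *
          (1 + gA L a (s0 k t L) (sta k t L i) M) +
        ((L : ℝ) - a - 1) / L * (1 + gN L a (s0 k t L) (sta k t L i) M)) - c ^ 2 * R) ≤
        wt L δ i * (((a : ℝ) + 1) / L * (max (1 + gA L a (s0 k t L) (sta k t L i) M) 0) ^ 2 +
      ((L : ℝ) - a - 1) / L * (max (1 + gN L a (s0 k t L) (sta k t L i) M) 0) ^ 2) := by
      intro i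
      refine mul_le_mul_of_nonneg_left ?_ (hw i)
      have h2 := tangent (c := ω * c) (u := 1 + gA L a (s0 k t L) (sta k t L i) M)
        (mul_nonneg hω hc)
      have h3 := tangent (c := c) (u := 1 + gN L a (s0 k t L) (sta k t L i) M) hc
      have h4 : (0 : ℝ) ≤ ((a : ℝ) + 1) / L := by positivity
      have h5 : (0 : ℝ) ≤ ((L : ℝ) - a - 1) / L := (div_pos haL hLp).le
      have h6 := mul_le_mul_of_nonneg_left h2 h4
      have h7 := mul_le_mul_of_nonneg_left h3 h5
      rw [hRd]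
      nlinarith
    refine le_trans ?_ (Finset.sum_le_sum fun i _ => h1 i)
    simp_rw [mul_sub]
    rw [Finset.sum_sub_distrib, ← Finset.sum_mul, hw1, one_mul]
    have h8 : ∀ g : ℕ → ℝ, ∑ i ∈ range L, wt L δ i * (2 * c * g i) =
        2 * c * ∑ i ∈ range L, wt L δ i * g i := by
      intro g
      rw [Finset.mul_sum]
      refine Finset.sum_congr rfl fun i _ => ?_
      ring
    rw [h8]
    have h9 : c * R = P + (S - P) * X := by rw [hcd]; field_simp
    have h10 := mul_le_mul_of_nonneg_left hM (by positivity : (0 : ℝ) ≤ 2 * c)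
    have h11 : c ^ 2 * R = c * (P + (S - P) * X) := by rw [← h9]; ring
    linarith
  have hlam : (0 : ℝ) ≤ ((L : ℝ) - a) / ((a : ℝ) + 1) := div_nonneg (by linarith) (by positivity)
  have hfin := mul_le_mul_of_nonneg_left hsq hlam
  have e5 : c * (P + (S - P) * X) = (P + (S - P) * X) ^ 2 / R := by
    rw [hcd]; ring
  rw [e5, Finset.mul_sum] at hfin
  refine hfin.trans (le_of_eq ?_)
  refine Finset.sum_congr rfl fun i _ => ?_
  have hb : (a : ℝ) + 1 ≠ 0 := by positivity
  field_simp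

end Pool.Agent.DPF.H92
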